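import Pool.Agent.Lib.MP_deb411_al.Main

set_option autoImplicit false

namespace Pool.Agent.Results.MP_deb411_al.NoCoverContinuum

open Pool.Agent.Lib.MP_deb411_al

/-- The set of subvarieties of the variety of representable l-groups that have no cover in it
has the cardinality of the continuum. -/
theorem result : Cardinal.mk NoCover = Cardinal.continuum :=
  card_noCover

end Pool.Agent.Results.MP_deb411_al.NoCoverContinuum
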